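import Pool.Agent.helper5.BEY.SpecA

/-!
# Project BEY (MP_4467b5_nt), row CLU: clusters of a finite set of reals
-/

set_option autoImplicit false

open Complex MeasureTheory

namespace Pool.Agent.BEY

/-- the points of `W` within `r` of `t` -/
noncomputable def CLU_B (W : Finset ℝ) (r t : ℝ) : Finset ℝ := by
  classical exact W.filter fun s => |s - t| ≤ r

theorem CLU_mem (W : Finset ℝ) (r t s : ℝ) : s ∈ CLU_B W r t ↔ s ∈ W ∧ |s - t| ≤ r := by
  classical
  unfold CLU_B
  exact Finset.mem_filter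

theorem CLU_sub (W : Finset ℝ) (r t : ℝ) : CLU_B W r t ⊆ W :=
  fun s hs => ((CLU_mem W r t s).1 hs).1

/-- maximal separated subsets -/
theorem CLU_sep (V : Finset ℝ) (r : ℝ) (hr : 0 < r) : ∃ S : Finset ℝ, S ⊆ V ∧
    (∀ t ∈ S, ∀ s ∈ S, t ≠ s → r ≤ |t - s|) ∧ ∀ t ∈ V, ∃ s ∈ S, |t - s| ≤ r := by
  classical
  set F : Finset (Finset ℝ) := V.powerset.filter fun S => ∀ t ∈ S, ∀ s ∈ S, t ≠ s → r ≤ |t - s|
    with hF
  have hne : F.Nonempty := by
    refine ⟨∅, ?_⟩
    rw [hF, Finset.mem_filter]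
    exact ⟨by simp, by simp⟩
  obtain ⟨S, hS, hmax⟩ := Finset.exists_max_image F Finset.card hne
  have hS' := Finset.mem_filter.1 hS
  refine ⟨S, Finset.mem_powerset.1 hS'.1, hS'.2, ?_⟩
  intro t ht
  by_contra hcon
  push Not at hcon
  have htS : t ∉ S := by
    intro h
    have := hcon t h
    rw [sub_self, abs_zero] at this
    linarith
  have hins : insert t S ∈ F := by
    rw [hF, Finset.mem_filter]
    refine ⟨?_, ?_⟩
    · rw [Finset.mem_powerset]
      intro x hx
      rcases Finset.mem_insert.1 hx with rfl | hx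
      · exact ht
      · exact Finset.mem_powerset.1 hS'.1 hx
    · intro a ha b hb hab
      rcases Finset.mem_insert.1 ha with ha' | ha' <;> rcases Finset.mem_insert.1 hb with hb' | hb'
      · exact absurd (ha'.trans hb'.symm) hab
      · rw [ha']; exact (hcon b hb').le
      · rw [hb', abs_sub_comm]; exact (hcon a ha').le
      · exact hS'.2 a ha' b hb' hab
  have := hmax _ hins
  rw [Finset.card_insert_of_notMem htS] at this
  omega

theorem CLU : CLU_stmt := by
  classical
  intro W G₀ hG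
  have hpos : ∀ i : ℕ, 0 < (2 : ℝ) ^ i * G₀ := fun i => by positivity
  -- the level of a point
  set lev : ℝ → ℕ := fun t =>
    Nat.findGreatest (fun i => 2 ^ i ≤ (CLU_B W ((2 : ℝ) ^ i * G₀) t).card) W.card with hlev
  have hle : ∀ t, lev t ≤ W.card := fun t => Nat.findGreatest_le _
  have hP0 : ∀ t ∈ W, 2 ^ 0 ≤ (CLU_B W ((2 : ℝ) ^ 0 * G₀) t).card := by
    intro t ht
    rw [pow_zero]
    apply Finset.card_pos.2
    refine ⟨t, (CLU_mem _ _ _ _).2 ⟨ht, ?_⟩⟩
    rw [sub_self, abs_zero]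
    exact (hpos 0).le
  have hspec : ∀ t ∈ W, 2 ^ (lev t) ≤ (CLU_B W ((2 : ℝ) ^ (lev t) * G₀) t).card := by
    intro t ht
    exact Nat.findGreatest_spec (P := fun i => 2 ^ i ≤ (CLU_B W ((2 : ℝ) ^ i * G₀) t).card)
      (Nat.zero_le _) (hP0 t ht)
  have hlt : ∀ t ∈ W, lev t < W.card := by
    intro t ht
    have h1 := (hspec t ht).trans (Finset.card_le_card (CLU_sub W _ t))
    exact Nat.lt_two_pow_self.trans_le h1
  have hgr : ∀ t ∈ W, (CLU_B W ((2 : ℝ) ^ (lev t + 1) * G₀) t).card < 2 ^ (lev t + 1) := by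
    intro t ht
    have := Nat.findGreatest_is_greatest
      (P := fun i => 2 ^ i ≤ (CLU_B W ((2 : ℝ) ^ i * G₀) t).card) (n := W.card)
      (k := lev t + 1) (Nat.lt_succ_self _) (hlt t ht)
    exact not_le.1 this
  choose Ws hWs1 hWs2 hWs3 using fun i : ℕ =>
    CLU_sep (W.filter fun t => lev t = i) ((2 : ℝ) ^ i * G₀) (hpos i)
  refine ⟨Ws, fun i => (hWs1 i).trans (Finset.filter_subset _ _), hWs2, ?_, ?_⟩
  · intro i t ht
    have ht' := Finset.mem_filter.1 (hWs1 i ht)
    refine ⟨CLU_B W ((2 : ℝ) ^ i * G₀) t, CLU_sub _ _ _, ?_, ?_⟩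
    · intro s hs
      exact ((CLU_mem _ _ _ _).1 hs).2
    · have := hspec t ht'.1
      rw [ht'.2] at this
      exact this
  · have hcov : W.card ≤ ∑ i ∈ Finset.range (W.card + 1), (W.filter fun t => lev t = i).card := by
      rw [← Finset.card_eq_sum_card_fiberwise (f := lev)]
      intro t _
      rw [Finset.coe_range, Set.mem_Iio]
      have := hle t
      omega
    refine hcov.trans (Finset.sum_le_sum ?_)
    intro i _
    have hsub : (W.filter fun t => lev t = i) ⊆
        (Ws i).biUnion fun t => CLU_B W ((2 : ℝ) ^ (i + 1) * G₀) t := by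
      intro t ht
      obtain ⟨s, hs, hts⟩ := hWs3 i t ht
      rw [Finset.mem_biUnion]
      refine ⟨s, hs, (CLU_mem _ _ _ _).2 ⟨(Finset.mem_filter.1 ht).1, hts.trans ?_⟩⟩
      have := hpos i
      rw [pow_succ]
      linarith
    calc (W.filter fun t => lev t = i).card
        ≤ ((Ws i).biUnion fun t => CLU_B W ((2 : ℝ) ^ (i + 1) * G₀) t).card :=
          Finset.card_le_card hsub
      _ ≤ ∑ t ∈ Ws i, (CLU_B W ((2 : ℝ) ^ (i + 1) * G₀) t).card := Finset.card_biUnion_le
      _ ≤ ∑ _t ∈ Ws i, 2 ^ (i + 1) := by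
          refine Finset.sum_le_sum ?_
          intro t ht
          have ht' := Finset.mem_filter.1 (hWs1 i ht)
          have := hgr t ht'.1
          rw [ht'.2] at this
          exact this.le
      _ = 2 ^ (i + 1) * (Ws i).card := by
          rw [Finset.sum_const, smul_eq_mul, mul_comm]

end Pool.Agent.BEY
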